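import Pool.Agent.Helper68.QS.St1

/-!
# Project QD, module CPO: composition with the symmetric solution, all parameters
-/

open MeasureTheory Set Filter Topology Complex
open scoped ContDiff ComplexConjugate ENNReal

namespace Pool.Agent.Helper74.QS

open Pool.Agent.Helper68.QS
open Pool.Agent.Helper68.QC hiding muT
open Pool.Agent.Helper61.QE (D Dx rf SU Fu FD Ab sy nuT muT syX syY Kap En Et)

private theorem nuT_meas (h : ℂ → ℂ) : Measurable (nuT h) := by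
  unfold nuT
  have m1 : Measurable fun z : ℂ => rf z := by
    have : Measurable fun z : ℂ => conj z := Complex.continuous_conj.measurable
    exact measurable_const.div this
  have m2 : Measurable fun z : ℂ => deriv h (rf z) := (measurable_deriv h).comp m1
  have m3 : Measurable fun z : ℂ => conj (deriv h (rf z)) :=
    Complex.continuous_conj.measurable.comp m2
  have m4 : Measurable fun z : ℂ => conj z := Complex.continuous_conj.measurable
  refine Measurable.ite (measurableSet_lt measurable_const measurable_norm) ?_ measurable_const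
  exact (m2.div m3).mul ((measurable_id.pow_const 2).div (m4.pow_const 2))

private theorem nuT_le (h : ℂ → ℂ) (z : ℂ) : ‖nuT h z‖ ≤ 1 := by
  unfold nuT
  split_ifs with hz
  · rw [norm_mul]
    have h1 : ‖deriv h (rf z) / conj (deriv h (rf z))‖ ≤ 1 := by
      rw [norm_div, RCLike.norm_conj]
      exact div_self_le_one _
    have h2 : ‖z ^ 2 / conj z ^ 2‖ ≤ 1 := by
      rw [norm_div, norm_pow, norm_pow, RCLike.norm_conj]
      exact div_self_le_one _
    calc _ ≤ (1 : ℝ) * 1 := mul_le_mul h1 h2 (norm_nonneg _) zero_le_one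
      _ = 1 := one_mul 1
  · rw [norm_zero]
    exact zero_le_one

private theorem nuT_in (h : ℂ → ℂ) {z : ℂ} (hz : ‖z‖ ≤ 1) : nuT h z = 0 := by
  unfold nuT
  rw [if_neg (not_lt.2 hz)]

private theorem bel_mono {k k' : ℝ} {μ : ℂ → ℂ} (h : Bel k μ) (hk : k ≤ k') : Bel k' μ :=
  ⟨h.meas, fun z => (h.le z).trans hk⟩

private theorem muT_bel {k k' : ℝ} {κ : ℂ → ℂ} (hκ : Bel k κ) (hout : ∀ z, 1 ≤ ‖z‖ → κ z = 0)
    (h : ℂ → ℂ) (w : ℂ) (hk : k ≤ k') (hw : ‖w‖ ≤ k') : Bel k' (muT κ h w) := by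
  refine ⟨hκ.meas.add ((nuT_meas h).const_mul w), fun z => ?_⟩
  unfold muT
  by_cases hz : ‖z‖ ≤ 1
  · rw [nuT_in h hz, mul_zero, add_zero]
    exact (hκ.le z).trans hk
  · rw [hout z (not_le.1 hz).le, zero_add, norm_mul]
    calc ‖w‖ * ‖nuT h z‖ ≤ ‖w‖ * 1 := mul_le_mul_of_nonneg_left (nuT_le h z) (norm_nonneg _)
      _ ≤ k' := by rw [mul_one]; exact hw

private theorem sqn (z : ℂ) : ‖z‖ ^ 2 = z.re ^ 2 + z.im ^ 2 := by
  rw [← Complex.normSq_eq_norm_sq, Complex.normSq_apply]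
  ring

private theorem mbp_lt {p ζ : ℂ} (hp : ‖p‖ < 1) (hζ : ‖ζ‖ < 1) : ‖mbp p ζ‖ < 1 := by
  have h1 : ‖1 + conj p * ζ‖ ^ 2 - ‖ζ + p‖ ^ 2 = (1 - ‖p‖ ^ 2) * (1 - ‖ζ‖ ^ 2) := by
    rw [sqn, sqn, sqn, sqn]
    simp only [Complex.add_re, Complex.add_im, Complex.mul_re, Complex.mul_im, Complex.conj_re,
      Complex.conj_im, Complex.one_re, Complex.one_im]
    ring
  have h2 : 0 < 1 - ‖p‖ ^ 2 := by nlinarith [norm_nonneg p]
  have h3 : 0 < 1 - ‖ζ‖ ^ 2 := by nlinarith [norm_nonneg ζ]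
  have h4 : ‖ζ + p‖ ^ 2 < ‖1 + conj p * ζ‖ ^ 2 := by nlinarith [mul_pos h2 h3]
  have h5 : ‖ζ + p‖ < ‖1 + conj p * ζ‖ := lt_of_pow_lt_pow_left₀ 2 (norm_nonneg _) h4
  unfold mbp
  rw [norm_div, div_lt_one ((norm_nonneg _).trans_lt h5)]
  exact h5

private theorem mob_one (z : ℂ) : mob 1 z = z := by
  unfold mob den
  simp

private theorem den_one (z : ℂ) : den 1 z = 1 := by
  unfold den
  simp

/-- CPO -/
theorem pCPO (hEDD : Pool.Agent.Helper61.QE.StEDD) (hCOE : Pool.Agent.Helper61.QE.StCOE)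
    (hCGR : Pool.Agent.Helper68.QS.StCGR) (hCPA : Pool.Agent.Helper68.QS.StCPA)
    (hCPB : Pool.Agent.Helper68.QS.StCPB) : Pool.Agent.Helper68.QS.StCPO := by
  intro h H H' κ a b v M k hh hne hAff hSM hV hk hκ hout
  obtain ⟨t, ht⟩ : ∃ t, t = conj (b / a) := ⟨_, rfl⟩
  rw [← ht] at hV ⊢
  have hk0 : 0 ≤ k := (norm_nonneg (κ 0)).trans (hκ.le 0)
  have ha0 : 0 < ‖a‖ := (norm_nonneg b).trans_lt hAff.lt
  have ht1 : ‖t‖ < 1 := by
    rw [ht, RCLike.norm_conj, norm_div, div_lt_one ha0]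
    exact hAff.lt
  -- the symmetric solution
  have hcoe := hCOE Unit 1 h κ k (fun _ => by
      constructor
      · simp
      · simp) ⟨hh, fun _ => ⟨0, fun z _ => by
        rw [add_zero]
        exact congrArg h (mob_one z)⟩⟩ hk0
    ⟨hκ, hout, fun _ => Eventually.of_forall fun z => by
      change κ (mob 1 z) * den 1 z ^ 2 = κ z * conj (den 1 z) ^ 2
      rw [mob_one, den_one, map_one]⟩
  obtain ⟨-, hsy, -⟩ := hcoe
  obtain ⟨hsb, -, hss, -⟩ := hsy t
  have hVD : nq (syX h t) '' D = D := (hEDD ‖t‖ ht1 (syX h t) hsb hss).1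
  have hD0 : (0 : ℂ) ∈ D := by simp
  obtain ⟨δ0, hδ0, ν0, hν0, e0, -⟩ := hCPA h H H' κ a b v M k hh hne hAff hSM
    (by rw [← ht]; exact hV) hk hκ hout 0 hD0
  rw [← ht] at e0
  have hδ00 : 0 ≤ δ0 := (norm_nonneg (ν0 0)).trans (hν0.le 0)
  classical
  obtain ⟨κ', hκ'⟩ : ∃ κ' : ℂ → ℂ, κ' = fun z => if ‖z‖ < 1 then ν0 z else 0 := ⟨_, rfl⟩
  have hκ'b : Bel δ0 κ' := by
    rw [hκ']
    refine ⟨Measurable.ite (measurableSet_lt measurable_norm measurable_const) hν0.meas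
      measurable_const, fun z => ?_⟩
    split_ifs
    · exact hν0.le z
    · rw [norm_zero]
      exact hδ00
  have hκ'o : ∀ z, 1 ≤ ‖z‖ → κ' z = 0 := by
    intro z hz
    rw [hκ']
    exact if_neg (not_lt.2 hz)
  refine ⟨δ0, hδ0, κ', hκ'b, hκ'o, ?_⟩
  intro ζ hζ z
  have hζ1 : ‖ζ‖ < 1 := by rwa [mem_ball_zero_iff] at hζ
  obtain ⟨δ, hδ, ν, hν, e1, e2⟩ := hCPA h H H' κ a b v M k hh hne hAff hSM
    (by rw [← ht]; exact hV) hk hκ hout ζ hζ
  rw [← ht] at e1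
  have w1 : ‖mbp t ζ‖ < 1 := mbp_lt ht1 hζ1
  have w0 : ‖mbp t 0‖ < 1 := mbp_lt ht1 (by rw [norm_zero]; exact one_pos)
  obtain ⟨K, hKd⟩ : ∃ K, K = max (max k δ0) (max δ (max ‖mbp t ζ‖ ‖mbp t 0‖)) := ⟨_, rfl⟩
  have hK1 : K < 1 := by
    rw [hKd]
    exact max_lt (max_lt hk hδ0) (max_lt hδ (max_lt w1 w0))
  have k1 : k ≤ K := by rw [hKd]; exact (le_max_left _ _).trans (le_max_left _ _)
  have k2 : δ0 ≤ K := by rw [hKd]; exact (le_max_right _ _).trans (le_max_left _ _)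
  have k3 : δ ≤ K := by rw [hKd]; exact (le_max_left _ _).trans (le_max_right _ _)
  have k4 : ‖mbp t ζ‖ ≤ K := by
    rw [hKd]
    exact (le_max_left _ _).trans ((le_max_right _ _).trans (le_max_right _ _))
  have k5 : ‖mbp t 0‖ ≤ K := by
    rw [hKd]
    exact (le_max_right _ _).trans ((le_max_right _ _).trans (le_max_right _ _))
  have hin := hCPB K (nq (syX h t)) (muT κ h (mbp t ζ)) (muT κ h (mbp t 0)) ν ν0 hK1 hVD
    (muT_bel hκ hout h _ k1 k4) (muT_bel hκ hout h _ k1 k5) (bel_mono hν k3) (bel_mono hν0 k2)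
    (by
      intro x hx
      rw [mem_ball_zero_iff] at hx
      unfold muT
      rw [nuT_in h hx.le, mul_zero, mul_zero]) e1 e0
  obtain ⟨K', hK'd⟩ : ∃ K', K' = max K ‖ζ * (conj a / a)‖ := ⟨_, rfl⟩
  have hu : ‖ζ * (conj a / a)‖ = ‖ζ‖ := by
    rw [norm_mul, norm_div, RCLike.norm_conj, div_self ha0.ne', mul_one]
  have hK'1 : K' < 1 := by rw [hK'd, hu]; exact max_lt hK1 hζ1
  have kk1 : K ≤ K' := by rw [hK'd]; exact le_max_left _ _
  have kk2 : ‖ζ * (conj a / a)‖ ≤ K' := by rw [hK'd]; exact le_max_right _ _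
  have hae : ∀ᵐ x : ℂ, ν x = muT κ' (hM M h) (ζ * (conj a / a)) x := by
    have hDm : MeasurableSet D := Metric.isOpen_ball.measurableSet
    have hDxm : MeasurableSet Dx := measurableSet_lt measurable_const measurable_norm
    have hS : ∀ᵐ x : ℂ, x ∉ Metric.sphere (0 : ℂ) 1 :=
      measure_eq_zero_iff_ae_notMem.1 (Measure.addHaar_sphere volume 0 1)
    have a1 := (ae_restrict_iff' hDm).1 hin
    have a2 := (ae_restrict_iff' hDxm).1 e2
    filter_upwards [a1, a2, hS] with x x1 x2 x3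
    rw [mem_sphere_zero_iff_norm] at x3
    unfold muT
    rcases lt_or_gt_of_ne x3 with hx | hx
    · rw [nuT_in _ hx.le, mul_zero, add_zero, x1 (by rwa [mem_ball_zero_iff]), hκ']
      dsimp only
      rw [if_pos hx]
    · rw [hκ'o x hx.le, zero_add]
      exact x2 hx
  have hfin : nq ν = nq (muT κ' (hM M h) (ζ * (conj a / a))) :=
    hCGR.1 K' hK'1 _ _ (bel_mono hν (k3.trans kk1))
      (muT_bel hκ'b hκ'o _ _ (k2.trans kk1) kk2) hae
  rw [e1 z, hfin]

end Pool.Agent.Helper74.QS
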